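import Pool.Agent.Zk48.UL.Right

set_option autoImplicit false

namespace Pool.Agent.Zk48.UL

open Pool.Agent.R341.Uni Filter Topology

/-- weakly admissible sequences (periodic sequences are allowed) -/
def AdmW (t : ℕ → Bool) : Prop :=
  t 0 = false ∧ ∀ m, 1 ≤ m → Kp t (sh m t) ∨ (t m = false ∧ ∀ i, t (m + i) = t i)

lemma AdmW.first {t : ℕ → Bool} (h : AdmW t) {o : ℕ} (ho : 1 ≤ o) :
    (∃ k, 1 ≤ k ∧ (∀ i < k, xor (t (o + i)) (t o) = t i) ∧ xor (t (o + k)) (t o) = false ∧
      t k = true ∧ (∀ j, Dif t o j → k ≤ j)) ∨ (t o = false ∧ ∀ i, t (o + i) = t i) := by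
  rcases h.2 o ho with h5 | h5
  · left
    obtain ⟨k, h1, h2, h3⟩ := h5
    simp only [sh_apply, add_zero] at h1 h2
    refine ⟨k, ?_, h1, h2, h3, fun j hj => ?_⟩
    · rcases Nat.eq_zero_or_pos k with rfl | h0
      · rw [h.1] at h3; exact absurd h3 (by decide)
      · exact h0
    · by_contra hlt
      exact hj (h1 j (by omega))
  · exact Or.inr h5

lemma AdmW.first' {t : ℕ → Bool} (h : AdmW t) {o : ℕ} (ho : 1 ≤ o) (hto : t o = true) :
    ∃ k, 1 ≤ k ∧ (∀ i < k, xor (t (o + i)) (t o) = t i) ∧ xor (t (o + k)) (t o) = false ∧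
      t k = true ∧ (∀ j, Dif t o j → k ≤ j) := by
  rcases h.first ho with h1 | h1
  · exact h1
  · rw [h1.1] at hto; exact absurd hto (by decide)

/-- arbitrarily large good indices -/
lemma AdmW.exists_good {t : ℕ → Bool} (h : AdmW t) (hinf : ∀ m, ∃ n, m ≤ n ∧ t n = true) (B : ℕ) :
    ∃ n, B ≤ n ∧ Good t n := by
  classical
  obtain ⟨b, hb1, hb2⟩ := hinf (B + 1)
  -- first differences
  have hf : ∀ o, 1 ≤ o → t o = true → ∃ k, 1 ≤ k ∧ (∀ i < k, xor (t (o + i)) (t o) = t i) ∧
      xor (t (o + k)) (t o) = false ∧ t k = true ∧ (∀ j, Dif t o j → k ≤ j) :=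
    fun o ho h1 => h.first' ho h1
  choose! κ hκ0 hκ1 hκ2 hκ3 hκ4 using hf
  let S := (Finset.range (b + 1)).filter fun o => 1 ≤ o ∧ t o = true
  have hbS : b ∈ S := by
    simp only [S, Finset.mem_filter, Finset.mem_range]; exact ⟨by omega, by omega, hb2⟩
  obtain ⟨o, hoS, hmax⟩ := S.exists_max_image (fun o => o + κ o) ⟨b, hbS⟩
  simp only [S, Finset.mem_filter, Finset.mem_range] at hoS hmax
  obtain ⟨hob, ho1, ho2⟩ := hoS
  have hk0 := hκ0 o ho1 ho2
  have hN : t (o + κ o) = true := by
    have := hκ2 o ho1 ho2
    rw [ho2] at this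
    simpa using this
  refine ⟨o + κ o, ?_, hN, ?_⟩
  · have := hmax b ⟨by omega, by omega, hb2⟩
    omega
  · intro o' ho1' ho2' ho3'
    refine ⟨κ o', ?_, ?_⟩
    · rcases Nat.lt_or_ge o' (b + 1) with h5 | h5
      · have := hmax o' ⟨h5, ho1', ho3'⟩
        omega
      · by_contra hlt
        push Not at hlt
        -- agreement at `o'` up to `r`
        obtain ⟨m, rfl⟩ : ∃ m, o' = o + m := ⟨o' - o, by omega⟩
        have hm : 1 ≤ m := by omega
        obtain ⟨r, hr⟩ : ∃ r, κ o = m + r := ⟨κ o - m, by omega⟩
        have hr1 : 1 ≤ r := by omega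
        have hr2 : r < κ (o + m) := by omega
        have e1 : ∀ i ≤ r, (!t (o + m + i)) = t i := fun i hi => by
          have := hκ1 (o + m) ho1' ho3' i (by omega)
          rw [ho3'] at this
          simpa using this
        have e2 : ∀ i < r, (!t (o + m + i)) = t (m + i) := fun i hi => by
          have := hκ1 o ho1 ho2 (m + i) (by omega)
          rw [ho2, show o + (m + i) = o + m + i by ring] at this
          simpa using this
        have e3 : t r = false := by
          have := e1 r le_rfl
          rw [show o + m + r = o + κ o by omega, hN] at this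
          simpa using this.symm
        have e4 : t (m + r) = true := by rw [← hr]; exact hκ3 o ho1 ho2
        have e5 : t m = false := by
          have h6 := e1 0 (by omega)
          have h7 := e2 0 (by omega)
          rw [h6, h.1] at h7
          exact h7.symm
        rcases h.first hm with h11 | h11
        · obtain ⟨k, hk0', hk1, hk2, hk3, hk4⟩ := h11
          rw [e5] at hk1 hk2
          simp only [Bool.xor_false] at hk1 hk2
          have e6 : Dif t m r := by
            unfold Dif
            rw [e4, e5, e3]; decide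
          have e7 := hk4 r e6
          rcases Nat.lt_or_ge k r with h8 | h8
          · have h9 := e1 k h8.le
            have h10 := e2 k h8
            rw [h9, hk2, hk3] at h10
            exact absurd h10 (by decide)
          · obtain rfl : k = r := by omega
            rw [e3] at hk3
            exact absurd hk3 (by decide)
        · have h12 := h11.2 r
          rw [e4, e3] at h12
          exact absurd h12 (by decide)
    · unfold Dif
      rw [hκ2 o' ho1' ho3', hκ3 o' ho1' ho3']
      decide

/-- the periodic sequence of a good prefix is weakly admissible -/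
lemma AdmW.periodic {t : ℕ → Bool} (h : AdmW t) {M : ℕ} (hM : 1 ≤ M) (hg : Good t M) (m : ℕ) :
    Kp (fun i => t (i % M)) (sh m (fun i => t (i % M))) ∨
      ∀ i, xor ((fun i => t (i % M)) (m + i)) ((fun i => t (i % M)) m) =
        (fun i => t (i % M)) i := by
  -- reduction to `m < M`
  have hred : ∀ i, (m + i) % M = (m % M + i) % M := fun i => by rw [Nat.mod_add_mod]
  have hred0 : m % M % M = m % M := Nat.mod_mod _ _
  suffices hs : ∀ o, o < M → (Kp (fun i => t (i % M)) (sh o (fun i => t (i % M))) ∨
      ∀ i, xor ((fun i => t (i % M)) (o + i)) ((fun i => t (i % M)) o) =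
        (fun i => t (i % M)) i) by
    have h1 := hs (m % M) (Nat.mod_lt _ hM)
    have e : sh m (fun i => t (i % M)) = sh (m % M) (fun i => t (i % M)) := by
      funext i
      simp only [sh_apply]
      rw [hred]
    rcases h1 with h1 | h1
    · left; rw [e]; exact h1
    · right
      intro i
      have := h1 i
      simp only [hred0] at this ⊢
      rw [hred]; exact this
  intro o ho
  have hmod : ∀ i, i < M → i % M = i := fun i hi => Nat.mod_eq_of_lt hi
  rcases Nat.eq_zero_or_pos o with rfl | ho1
  · right
    intro i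
    simp [h.1]
  · rcases h.first ho1 with h20 | h20
    · obtain ⟨k, hk0, hk1, hk2, hk3, hk4⟩ := h20
      rcases Nat.lt_or_ge (o + k) M with h5 | h5
      · left
        refine ⟨k, fun i hi => ?_, ?_, ?_⟩
        · simp only [sh_apply, add_zero]
          rw [hmod _ (by omega), hmod _ ho, hmod _ (by omega)]
          exact hk1 i hi
        · simp only [sh_apply, add_zero]
          rw [hmod _ (by omega), hmod _ ho]
          exact hk2
        · show t (k % M) = true
          rw [hmod _ (by omega)]; exact hk3
      · obtain ⟨r, hr⟩ : ∃ r, M = o + r := ⟨M - o, by omega⟩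
        have hr1 : 1 ≤ r := by omega
        have hrk : r ≤ k := by omega
        have htM : t (o + r) = true := by rw [← hr]; exact hg.1
        cases hto : t o
        · rw [hto] at hk1 hk2
          simp only [Bool.xor_false] at hk1 hk2
          have htr : t r = true := by
            rcases Nat.lt_or_ge r k with h6 | h6
            · rw [← hk1 r h6]; exact htM
            · obtain rfl : r = k := by omega
              exact hk3
          left
          refine ⟨r, fun i hi => ?_, ?_, ?_⟩
          · simp only [sh_apply, add_zero]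
            rw [hmod _ (by omega), hmod _ ho, hmod _ (by omega), hto, Bool.xor_false]
            exact hk1 i (by omega)
          · simp only [sh_apply, add_zero]
            rw [← hr, Nat.mod_self, hmod _ ho, hto, h.1]; rfl
          · show t (r % M) = true
            rw [hmod _ (by omega)]; exact htr
        · obtain ⟨j0, hj0, hj0'⟩ := hg.2 o ho1 ho hto
          have hkr : k = r := by
            have := hk4 j0 hj0'
            omega
          subst hkr
          rw [hto] at hk1 hk2
          simp only [Bool.xor_true] at hk1 hk2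
          obtain ⟨k', hk0', hk1', hk2', hk3', hk4'⟩ := h.first' hr1 hk3
          rw [hk3] at hk1' hk2'
          simp only [Bool.xor_true] at hk1' hk2'
          have hMj : ∀ j, j < o → (o + (k + j)) % M = j := fun j hj => by
            rw [← add_assoc, ← hr, Nat.add_mod_left, hmod _ (by omega)]
          rcases Nat.lt_or_ge (k + k') M with h6 | h6
          · left
            refine ⟨k + k', fun i hi => ?_, ?_, ?_⟩
            · simp only [sh_apply, add_zero]
              rw [hmod _ ho, hto, Bool.xor_true, hmod i (by omega)]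
              rcases Nat.lt_or_ge i k with h7 | h7
              · rw [hmod _ (by omega)]; exact hk1 i h7
              · obtain ⟨i', rfl⟩ : ∃ i', i = k + i' := ⟨i - k, by omega⟩
                rw [hMj i' (by omega), ← hk1' i' (by omega)]
                simp
            · simp only [sh_apply, add_zero]
              rw [hmod _ ho, hto, hMj k' (by omega), hk3']; rfl
            · show t ((k + k') % M) = true
              rw [hmod _ h6]
              simpa using hk2'
          · right
            -- equality on one period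
            have hper : ∀ j, j < M → (!t ((o + j) % M)) = t j := by
              intro j hj
              rcases Nat.lt_trichotomy j k with h7 | h7 | h7
              · rw [hmod _ (by omega)]; exact hk1 j h7
              · subst h7
                rw [← hr, Nat.mod_self, h.1, hk3]; rfl
              · obtain ⟨i', rfl⟩ : ∃ i', j = k + i' := ⟨j - k, by omega⟩
                rw [hMj i' (by omega), ← hk1' i' (by omega)]
                simp
            intro i
            simp only
            rw [hmod _ ho, hto, Bool.xor_true, ← hper (i % M) (Nat.mod_lt _ hM), Nat.add_mod_mod]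
    · -- `o` is a period of `t`
      obtain ⟨hto, hper⟩ := h20
      obtain ⟨r, hr⟩ : ∃ r, M = o + r := ⟨M - o, by omega⟩
      have htr : t r = true := by rw [← hper r, ← hr]; exact hg.1
      have hr1 : r < M := by omega
      left
      refine ⟨r, fun i hi => ?_, ?_, ?_⟩
      · simp only [sh_apply, add_zero]
        rw [hmod _ (by omega), hmod _ ho, hmod _ (by omega), hto, Bool.xor_false]
        exact hper i
      · simp only [sh_apply, add_zero]
        rw [← hr, Nat.mod_self, hmod _ ho, hto, h.1]; rfl
      · show t (r % M) = true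
        rw [hmod _ hr1]; exact htr

/-- from numerical conditions at one place to `Kp` -/
lemma kp_of_num' {q : ℝ} (hq : 1 < q) {t : ℕ → Bool} (ht : t 0 = false) (h1 : P q (sh 1 t) = 1)
    (hW : WU q (sh 1 t)) {c : ℕ → Bool} (h0 : c 0 = false → P q (sh 1 c) < 1)
    (h1' : c 0 = true → 1 / (q - 1) - 1 < P q (sh 1 c)) : Kp t c := by
  have aux : ∀ c : ℕ → Bool, c 0 = false → P q (sh 1 c) < 1 → Kp t c := by
    intro c hc hlt
    have h3 : Lt (sh 1 c) (sh 1 t) := by
      rcases trich (sh 1 c) (sh 1 t) with h | h | h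
      · rw [h, h1] at hlt; exact absurd hlt (lt_irrefl _)
      · exact h
      · obtain ⟨p, hp1, hp2, hp3⟩ := h
        have := wlt_of_left hq hp1 hp2 hp3 ((hW p).1 hp2)
        linarith
    obtain ⟨p, hp1, hp2, hp3⟩ := h3
    refine ⟨p + 1, fun i hi => ?_, ?_, ?_⟩
    · rcases Nat.eq_zero_or_pos i with rfl | hi0
      · simp [ht]
      · obtain ⟨i', rfl⟩ : ∃ i', i = i' + 1 := ⟨i - 1, by omega⟩
        have := hp1 i' (by omega)
        simp only [sh_apply] at this
        rw [hc, Bool.xor_false, add_comm i' 1, this]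
    · rw [hc, Bool.xor_false, add_comm p 1]; exact hp2
    · rw [add_comm p 1]; exact hp3
  cases hc : c 0
  · exact aux c hc (h0 hc)
  · have h2 := aux (fun i => !c i) (by simp [hc]) (by
      have e : sh 1 (fun i => !c i) = fun i => !(sh 1 c i) := rfl
      rw [e, P_compl hq]
      have := h1' hc
      linarith)
    have := h2.compl
    simpa using this

/-- from numerical conditions to weak admissibility -/
lemma admW_of_num {q : ℝ} (hq : 1 < q) (hq2 : q < 2) {t : ℕ → Bool} (ht : t 0 = false)
    (h1 : P q (sh 1 t) = 1) (hW : WU q (sh 1 t))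
    (hS : ∀ n, t n = true → 1 / (q - 1) - 1 < P q (sh (n + 1) t)) : AdmW t := by
  refine ⟨ht, fun m hm => ?_⟩
  obtain ⟨m', rfl⟩ : ∃ m', m = m' + 1 := ⟨m - 1, by omega⟩
  have hWm := hW m'
  rw [sh_sh] at hWm
  rw [show 1 + (m' + 1) = m' + 1 + 1 by ring] at hWm
  simp only [sh_apply, show 1 + m' = m' + 1 by ring] at hWm
  by_cases heq : t (m' + 1) = false ∧ P q (sh (m' + 1 + 1) t) = 1
  · right
    refine ⟨heq.1, ?_⟩
    have htail : sh (m' + 1 + 1) t = sh 1 t := by
      rcases trich (sh (m' + 1 + 1) t) (sh 1 t) with h | h | h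
      · exact h
      · obtain ⟨p, hp1, hp2, hp3⟩ := h
        have e1 := (hW p).2 hp3
        have e2 := (hW (m' + 1 + p)).1 (by
          rw [sh_apply] at hp2 ⊢
          rw [show 1 + (m' + 1 + p) = m' + 1 + 1 + p by ring]; exact hp2)
        have := wu_lt hq hq2 hp1 hp2 hp3 (by
          rw [sh_sh] at e2 ⊢
          rw [show m' + 1 + 1 + (p + 1) = 1 + (m' + 1 + p + 1) by ring]; exact e2) e1
        linarith [heq.2]
      · obtain ⟨p, hp1, hp2, hp3⟩ := h
        have e1 := (hW p).1 hp2
        have e2 := (hW (m' + 1 + p)).2 (by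
          rw [sh_apply] at hp3 ⊢
          rw [show 1 + (m' + 1 + p) = m' + 1 + 1 + p by ring]; exact hp3)
        have := wu_lt hq hq2 hp1 hp2 hp3 e1 (by
          rw [sh_sh] at e2 ⊢
          rw [show m' + 1 + 1 + (p + 1) = 1 + (m' + 1 + p + 1) by ring]; exact e2)
        linarith [heq.2]
    intro i
    rcases Nat.eq_zero_or_pos i with rfl | hi
    · rw [add_zero, heq.1, ht]
    · obtain ⟨i', rfl⟩ : ∃ i', i = i' + 1 := ⟨i - 1, by omega⟩
      have := congrFun htail i'
      simp only [sh_apply] at this
      rw [show m' + 1 + (i' + 1) = m' + 1 + 1 + i' by ring, this, add_comm 1 i']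
  · left
    refine kp_of_num' hq ht h1 hW (fun h => ?_) (fun h => ?_)
    · rw [sh_sh]
      rw [sh_apply, add_zero] at h
      refine lt_of_le_of_ne (hWm.1 h) fun he => heq ⟨h, he⟩
    · rw [sh_sh]
      rw [sh_apply, add_zero] at h
      exact hS _ h

/-- points of weakly univoque expansions have a smaller univoque base -/
theorem H2_gen {Q : ℝ} (hQ1 : 1 < Q) (hQ2 : Q < 2) (D : ℕ → Bool) (hD : WU Q D)
    (hD1 : ∀ n, D n = true → 1 / (Q - 1) - 1 < P Q (sh (n + 1) D)) (hD2 : ¬ Un Q D) :
    ∃ q ∈ Ux (P Q D), q < Q := by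
  classical
  have hex : ∃ n, D n = false ∧ P Q (sh (n + 1) D) = 1 := by
    by_contra hc
    push Not at hc
    exact hD2 fun n => ⟨fun hn => lt_of_le_of_ne ((hD n).1 hn) (hc n hn), hD1 n⟩
  obtain ⟨hn1, hn2⟩ := Nat.find_spec hex
  have hmin : ∀ j < Nat.find hex, D j = false → P Q (sh (j + 1) D) < 1 := fun j hj hj2 => by
    refine lt_of_le_of_ne ((hD j).1 hj2) fun h => ?_
    exact Nat.find_min hex hj ⟨hj2, h⟩
  set n := Nat.find hex with hn
  obtain ⟨t, htdef⟩ : ∃ t : ℕ → Bool, t = sh n D := ⟨_, rfl⟩
  have hDt : ∀ i, D (n + i) = t i := fun i => by rw [htdef, sh_apply]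
  have ht0 : t 0 = false := by rw [← hDt 0, add_zero]; exact hn1
  have hst : sh 1 t = sh (n + 1) D := by rw [htdef, sh_sh]
  have hα : P Q (sh 1 t) = 1 := by rw [hst]; exact hn2
  have hWt : WU Q t := fun m => by
    have := hD (n + m)
    rw [htdef, sh_sh]
    exact this
  have hW1 : WU Q (sh 1 t) := fun m => by
    have := hWt (1 + m)
    rw [sh_sh]
    exact this
  have hSt : ∀ m, t m = true → 1 / (Q - 1) - 1 < P Q (sh (m + 1) t) := fun m hm => by
    rw [← hDt] at hm
    rw [htdef, sh_sh]
    exact hD1 _ hm
  have hA : 1 < 1 / (Q - 1) := by rw [lt_div_iff₀ (by linarith)]; linarith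
  have ht : AdmW t := admW_of_num hQ1 hQ2 ht0 hα hW1 hSt
  have hnext : ∀ m, t m = true → ∃ m', m < m' ∧ t m' = true := fun m hm => by
    obtain ⟨k, hk⟩ := exists_true_of_pos (q := Q) (d := sh (m + 1) t)
      (by have := hSt m hm; linarith)
    exact ⟨m + 1 + k, by omega, hk⟩
  have hone : ∃ m, t m = true := by
    obtain ⟨k, hk⟩ := exists_true_of_pos (q := Q) (d := sh 1 t) (by rw [hα]; norm_num)
    exact ⟨1 + k, hk⟩
  have hinf : ∀ m, ∃ m', m ≤ m' ∧ t m' = true := by
    intro m
    induction m with
    | zero => obtain ⟨k, hk⟩ := hone; exact ⟨k, by omega, hk⟩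
    | succ m ih =>
      obtain ⟨k, hk1, hk2⟩ := ih
      obtain ⟨k', hk3, hk4⟩ := hnext k hk2
      exact ⟨k', by omega, hk4⟩
  have ht1 : t 1 = true := by
    rcases h : t 1 with _ | _
    · exfalso
      -- the first `true` after the position `1`
      have h2 := (hWt 1).1 h
      obtain ⟨k, hk⟩ := exists_true_of_pos (q := Q) (d := sh 1 t) (by rw [hα]; norm_num)
      have h3 := P_succ hQ1 (sh 1 t)
      rw [hα, sh_sh, sh_apply, add_zero, h, dg_false, zero_add, eq_div_iff (by linarith)] at h3
      have h4 : P Q (sh (1 + 1) t) ≤ 1 := h2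
      linarith
    · rfl
  -- witnesses for the positions before `n`
  have hkp : ∀ j < n, Kp t (sh j D) := fun j hj => by
    refine kp_of_num' hQ1 ht0 hα hW1 (fun h => ?_) (fun h => ?_)
    · rw [sh_sh]; exact hmin j hj (by simpa using h)
    · rw [sh_sh]; exact hD1 j (by simpa using h)
  have hbound : ∃ B, ∀ j < n, ∃ k < B, (∀ i < k, xor (sh j D i) (sh j D 0) = t i) ∧
      xor (sh j D k) (sh j D 0) = false ∧ t k = true := by
    choose! k hk using hkp
    refine ⟨(Finset.range n).sup k + 1, fun j hj => ⟨k j, ?_, hk j hj⟩⟩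
    have := Finset.le_sup (f := k) (Finset.mem_range.2 hj)
    omega
  obtain ⟨B, hB⟩ := hbound
  -- the intermediate base
  obtain ⟨q1, hq11, hq1Q⟩ := exists_between hQ1
  have hδ : 1 < P q1 (sh 1 t) := by
    rw [← hα]
    exact P_strict hq11 hq1Q _ (n := 0) ht1
  obtain ⟨B', hB'⟩ : ∃ B : ℕ, ∀ n, B ≤ n → 1 / (q1 - 1) / q1 ^ n < P q1 (sh 1 t) - 1 := by
    have hlim : Filter.Tendsto (fun n : ℕ => 1 / (q1 - 1) / q1 ^ n) Filter.atTop (nhds 0) := by
      have h5 : Filter.Tendsto (fun n : ℕ => (1 / (q1 - 1)) * (1 / q1) ^ n) Filter.atTop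
          (nhds ((1 / (q1 - 1)) * 0)) :=
        (tendsto_pow_atTop_nhds_zero_of_lt_one (by positivity)
          (by rw [div_lt_one (by linarith)]; exact hq11)).const_mul _
      rw [mul_zero] at h5
      refine h5.congr fun n => ?_
      rw [one_div_pow, mul_one_div]
    have := hlim.eventually (gt_mem_nhds (show 0 < P q1 (sh 1 t) - 1 by linarith))
    rw [Filter.eventually_atTop] at this
    exact this
  obtain ⟨M, hM1, hM2⟩ := ht.exists_good hinf (max (B' + 1) (max B 2))
  have e1 : B' + 1 ≤ M := le_trans (le_max_left _ _) hM1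
  have e2 : B ≤ M := le_trans (le_trans (le_max_left _ _) (le_max_right _ _)) hM1
  have e3 : 2 ≤ M := le_trans (le_trans (le_max_right _ _) (le_max_right _ _)) hM1
  -- the periodic sequence
  set t' : ℕ → Bool := fun i => t (i % M) with ht'
  have ht'0 : t' 0 = false := by simp [ht', ht0]
  have ht's : ∀ j, j < M → t' j = t j := fun j hj => by
    show t (j % M) = t j
    rw [Nat.mod_eq_of_lt hj]
  have ht'M : t' M = false := by
    show t (M % M) = false
    rw [Nat.mod_self]; exact ht0
  have hlow : P Q (sh 1 t') < 1 := by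
    rw [← hα]
    refine lt_of_right hQ1 (p := M - 1) (fun i hi => ?_) ?_ ?_ ?_
    · rw [sh_apply, sh_apply, ht's _ (by omega)]
    · rw [sh_apply, show 1 + (M - 1) = M by omega]; exact ht'M
    · rw [sh_apply, show 1 + (M - 1) = M by omega]; exact hM2.1
    · rw [sh_sh, show 1 + (M - 1 + 1) = M + 1 by omega]
      exact hSt M hM2.1
  have hup : 1 < P q1 (sh 1 t') := by
    have h1 : P q1 (sh 1 t) ≤ P q1 (sh 1 t') + 1 / (q1 - 1) / q1 ^ (M - 1) := by
      refine P_agree hq11 fun i hi => ?_
      rw [sh_apply, sh_apply, ht's _ (by omega)]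
    have h2 := hB' (M - 1) (by omega)
    linarith
  obtain ⟨qm, h1, h2, h3⟩ := P_ivt hq11 hq1Q.le (sh 1 t') hlow hup
  have hqm1 : 1 < qm := by linarith
  -- the approximating sequence
  set E := glue n D t' with hE
  set F := glue n D (cons true (fun _ => false)) with hF
  have hEF : ∀ q, 1 < q → P q E = P q F + (P q (sh 1 t') - 1) / q ^ (n + 1) := by
    intro q hq
    have h4 := diff_eq hq (d := F) (e := E) (p := n) (fun i hi => by
      rw [hF, hE, glue_lt _ _ hi, glue_lt _ _ hi])
    rw [hF, hE, sh_glue, sh_glue, P_cons hq, P_zeros, P_succ hq t', ht'0, ← hF, ← hE, dg_true,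
      dg_false] at h4
    have hq0 : q ≠ 0 := by linarith
    rw [pow_succ]
    field_simp at h4 ⊢
    linarith
  have hDF : P Q D = P Q F := by
    have h4 := diff_eq hQ1 (d := F) (e := D) (p := n) (fun i hi => by rw [hF, glue_lt _ _ hi])
    rw [← htdef, hF, sh_glue, P_cons hQ1, P_zeros, P_succ hQ1 t, ht0, hα, ← hF, dg_true,
      dg_false] at h4
    have : (1 + 0 : ℝ) / Q = (0 + 1) / Q := by ring
    rw [this, sub_self, zero_div] at h4
    linarith
  have hFn : F n = true := by rw [hF]; simp [glue]
  have hE1 : P Q E < P Q D := by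
    rw [hEF Q hQ1, hDF]
    have : (P Q (sh 1 t') - 1) / Q ^ (n + 1) < 0 :=
      div_neg_of_neg_of_pos (by linarith) (by positivity)
    linarith
  have hE2 : P Q D < P qm E := by
    rw [hEF qm hqm1, hDF, h3, sub_self, zero_div, add_zero]
    exact P_strict hqm1 h2 F hFn
  obtain ⟨q, h5, h6, h7⟩ := P_ivt hqm1 h2.le E hE1 hE2
  have hq1 : 1 < q := by linarith
  refine ⟨q, mem_Ux.2 ⟨hq1, by linarith, E, h7, ?_⟩, h6⟩
  refine lexnum2 hq1 ht'0 ?_ fun m => ?_
  · rw [← h3]
    refine P_strict hqm1 h5 _ (n := 0) ?_
    rw [sh_apply, ht's _ (by omega)]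
    exact ht1
  · rcases Nat.lt_or_ge m n with h8 | h8
    · left
      obtain ⟨k, hkB, hk1, hk2, hk3⟩ := hB m h8
      have hED : ∀ i, i < n + M → E i = D i := by
        intro i hi
        rcases Nat.lt_or_ge i n with h9 | h9
        · rw [hE, glue_lt _ _ h9]
        · obtain ⟨i', rfl⟩ : ∃ i', i = n + i' := ⟨i - n, by omega⟩
          have := congrFun (sh_glue n D t') i'
          rw [sh_apply, ← hE] at this
          rw [this, hDt, ht's _ (by omega)]
      simp only [sh_apply, add_zero] at hk1 hk2
      refine ⟨k, fun i hi => ?_, ?_, ?_⟩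
      · simp only [sh_apply, add_zero]
        rw [hED _ (by omega), hED _ (by omega), ht's _ (by omega)]
        exact hk1 i hi
      · simp only [sh_apply, add_zero]
        rw [hED _ (by omega), hED _ (by omega)]
        exact hk2
      · rw [ht's _ (by omega)]; exact hk3
    · obtain ⟨m', rfl⟩ : ∃ m', m = n + m' := ⟨m - n, by omega⟩
      have hEt : ∀ i, E (n + i) = t' i := fun i => by
        have := congrFun (sh_glue n D t') i
        rw [sh_apply, ← hE] at this
        exact this
      have h9 := ht.periodic (show 1 ≤ M by omega) hM2 m'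
      have e : sh (n + m') E = sh m' t' := by
        funext i
        rw [sh_apply, sh_apply, add_assoc, hEt]
      rcases h9 with h9 | h9
      · left
        rw [e]; exact h9
      · right
        intro i
        have := h9 i
        rw [add_assoc, hEt, hEt]
        exact this

end Pool.Agent.Zk48.UL
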