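import Pool.Agent.R341.Uni15

set_option autoImplicit false

namespace Pool.Agent.Zk48.UL

open Pool.Agent.R341.Uni Filter Topology

/-- strict comparison of weakly univoque expansions -/
lemma wu_lt {q : ℝ} (hq : 1 < q) (hq2 : q < 2) {d e : ℕ → Bool} {p : ℕ} (h : ∀ i < p, d i = e i)
    (hd : d p = false) (he : e p = true) (h1 : P q (sh (p + 1) d) ≤ 1)
    (h2 : 1 / (q - 1) - 1 ≤ P q (sh (p + 1) e)) : P q d < P q e := by
  have h0 := diff_eq hq h
  have hA : 1 < 1 / (q - 1) := by
    rw [lt_div_iff₀ (by linarith)]; linarith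
  have h3 : 0 < P q (sh p e) - P q (sh p d) := by
    rw [P_succ hq (sh p e), P_succ hq (sh p d), sh_sh, sh_sh, sh_apply, sh_apply, add_zero, hd, he,
      ← sub_div]
    apply div_pos _ (by linarith)
    simp only [dg_true, dg_false]
    linarith
  have h4 : 0 < (P q (sh p e) - P q (sh p d)) / q ^ p := div_pos h3 (by positivity)
  linarith

/-- first difference of the tail of `c` after a zero with an expansion of `1` -/
lemma first_dif {q : ℝ} (hq : 1 < q) {c f : ℕ → Bool} (hc : Un q c) (hf1 : P q f = 1) {j : ℕ}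
    (hj : c j = false) :
    ∃ p, (∀ i < p, c (j + 1 + i) = f i) ∧ c (j + 1 + p) = false ∧ f p = true := by
  have h2 := (hc j).1 hj
  rcases trich (sh (j + 1) c) f with h | h | h
  · rw [h, hf1] at h2; exact absurd h2 (lt_irrefl _)
  · exact h
  · have := (hc.sh (j + 1)).lt_right hq h
    linarith

/-- arbitrarily far good positions -/
lemma exists_good_pos {q : ℝ} (hq : 1 < q) (hq2 : q < 2) {c f : ℕ → Bool} (hc : Un q c)
    (hf : WU q f) (hf1 : P q f = 1) (hinf : ∀ m, ∃ n, m ≤ n ∧ c n = false) (N : ℕ) :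
    ∃ n, N ≤ n ∧ c n = false ∧ ∀ j < n, c j = false →
      ∃ p, j + 1 + p ≤ n ∧ (∀ i < p, c (j + 1 + i) = f i) ∧ c (j + 1 + p) = false ∧
        f p = true := by
  classical
  obtain ⟨J, hJ1, hJ2⟩ := hinf N
  have hex : ∀ j, c j = false →
      ∃ p, (∀ i < p, c (j + 1 + i) = f i) ∧ c (j + 1 + p) = false ∧ f p = true :=
    fun j hj => first_dif hq hc hf1 hj
  choose! p hp1 hp2 hp3 using hex
  let S := (Finset.range (J + 1)).filter fun j => c j = false
  have hJS : J ∈ S := by
    simp only [S, Finset.mem_filter, Finset.mem_range]; exact ⟨by omega, hJ2⟩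
  obtain ⟨o, hoS, hmax⟩ := S.exists_max_image (fun j => j + 1 + p j) ⟨J, hJS⟩
  simp only [S, Finset.mem_filter, Finset.mem_range] at hoS hmax
  obtain ⟨ho1, ho2⟩ := hoS
  refine ⟨o + 1 + p o, ?_, hp2 o ho2, ?_⟩
  · have := hmax J ⟨by omega, hJ2⟩
    omega
  · intro j hj hcj
    refine ⟨p j, ?_, hp1 j hcj, hp2 j hcj, hp3 j hcj⟩
    rcases Nat.lt_or_ge j (J + 1) with h | h
    · exact hmax j ⟨h, hcj⟩
    · by_contra hlt
      push Not at hlt
      obtain ⟨s, rfl⟩ : ∃ s, j = o + 1 + s := ⟨j - (o + 1), by omega⟩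
      obtain ⟨r, hr⟩ : ∃ r, p o = s + 1 + r := ⟨p o - (s + 1), by omega⟩
      have hfs : f s = false := by rw [← hp1 o ho2 s (by omega)]; exact hcj
      have e1 : ∀ i < r, f i = f (s + 1 + i) := fun i hi => by
        rw [← hp1 _ hcj i (by omega), ← hp1 o ho2 (s + 1 + i) (by omega)]
        congr 1
        ring
      have e2 : f r = false := by
        rw [← hp1 _ hcj r (by omega), ← hp2 o ho2]
        congr 1
        omega
      have e3 : f (s + 1 + r) = true := by rw [← hr]; exact hp3 o ho2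
      have h5 : P q f < P q (sh (s + 1) f) := wu_lt hq hq2 (p := r) (fun i hi => e1 i hi) e2 e3
        ((hf r).1 e2) (by rw [sh_sh]; exact (hf (s + 1 + r)).2 e3)
      have h6 := (hf s).1 hfs
      linarith

/-- the flipped sequence is weakly univoque -/
lemma flip_wu {q : ℝ} (hq : 1 < q) {c f : ℕ → Bool} (hc : Un q c)
    (hf : WU q f) (hf1 : P q f = 1) {n : ℕ} (hn : c n = false)
    (hg : ∀ j < n, c j = false →
      ∃ p, j + 1 + p ≤ n ∧ (∀ i < p, c (j + 1 + i) = f i) ∧ c (j + 1 + p) = false ∧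
        f p = true) :
    WU q (glue n c (cons true fun i => !f i)) := by
  set d := glue n c (cons true fun i => !f i) with hd
  have hdn : sh n d = cons true fun i => !f i := sh_glue _ _ _
  have hdn0 : d n = true := by
    have := congrFun hdn 0
    simpa using this
  have htail : sh (n + 1) d = fun i => !f i := by
    rw [← sh_sh 1 n d, hdn, sh_cons]
  have hfc : WU q (sh (n + 1) d) := by rw [htail]; exact hf.compl hq
  have hPc : P q (sh (n + 1) d) = 1 / (q - 1) - 1 := by rw [htail, P_compl hq, hf1]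
  intro m
  rcases Nat.lt_trichotomy m n with hm | hm | hm
  · have hdm : d m = c m := glue_lt _ _ hm
    constructor
    · intro h0
      rw [hdm] at h0
      obtain ⟨p, hp0, hp1, hp2, hp3⟩ := hg m hm h0
      have hag : ∀ i < p, sh (m + 1) d i = f i := fun i hi => by
        rw [sh_apply, hd, glue_lt _ _ (by omega)]; exact hp1 i hi
      rcases Nat.lt_or_ge (m + 1 + p) n with h5 | h5
      · have : P q (sh (m + 1) d) ≤ P q f :=
          wlt_of_right hq hag (by rw [sh_apply, hd, glue_lt _ _ h5]; exact hp2) hp3 ((hf p).2 hp3)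
        linarith
      · have h6 : m + 1 + p = n := by omega
        have hag2 : ∀ i < p + 1, f i = sh (m + 1) d i := fun i hi => by
          rcases Nat.lt_or_ge i p with h7 | h7
          · exact (hag i h7).symm
          · obtain rfl : i = p := by omega
            rw [sh_apply, h6, hdn0, hp3]
        have h7 := diff_eq hq hag2
        rw [sh_sh, show m + 1 + (p + 1) = n + 1 by omega, hPc] at h7
        have h8 := (hf p).2 hp3
        have h9 : (1 / (q - 1) - 1 - P q (sh (p + 1) f)) / q ^ (p + 1) ≤ 0 :=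
          div_nonpos_of_nonpos_of_nonneg (by linarith) (by positivity)
        linarith
    · intro h1
      rw [hdm] at h1
      have h2 := (hc m).2 h1
      have h3 : P q (sh (m + 1) c) < P q (sh (m + 1) d) := by
        obtain ⟨s, hs⟩ : ∃ s, n = m + 1 + s := ⟨n - (m + 1), by omega⟩
        refine lt_of_left hq (p := s) (fun i hi => ?_) ?_ ?_ ?_
        · rw [sh_apply, sh_apply, hd, glue_lt _ _ (by omega)]
        · rw [sh_apply, ← hs]; exact hn
        · rw [sh_apply, ← hs]; exact hdn0
        · rw [sh_sh, show m + 1 + (s + 1) = n + 1 by omega]; exact (hc _).1 hn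
      linarith
  · subst hm
    refine ⟨fun h => ?_, fun _ => ?_⟩
    · rw [hdn0] at h; exact absurd h (by decide)
    · rw [hPc]
  · obtain ⟨i, rfl⟩ : ∃ i, m = n + 1 + i := ⟨m - (n + 1), by omega⟩
    have h2 := hfc i
    rw [sh_sh] at h2
    exact h2

/-- finitely many of the conditions are open -/
lemma open_cond {q : ℝ} (hq : 1 < q) {c : ℕ → Bool} (hc : Un q c) (N : ℕ) :
    ∀ᶠ q' in 𝓝 q, ∀ n < N, (c n = false → P q' (sh (n + 1) c) < 1) ∧
      (c n = true → 1 / (q' - 1) - 1 < P q' (sh (n + 1) c)) := by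
  have hcont : ∀ d : ℕ → Bool, ContinuousAt (fun q' => P q' d) q := fun d =>
    (P_cont d).continuousAt (Ioi_mem_nhds hq)
  have h1 : ∀ n, ∀ᶠ q' in 𝓝 q, (c n = false → P q' (sh (n + 1) c) < 1) ∧
      (c n = true → 1 / (q' - 1) - 1 < P q' (sh (n + 1) c)) := by
    intro n
    have hA : ContinuousAt (fun q' : ℝ => 1 / (q' - 1) - 1) q := by
      have : q - 1 ≠ 0 := by linarith
      fun_prop (disch := assumption)
    cases hcn : c n
    · have h2 := (hc n).1 hcn
      filter_upwards [(hcont (sh (n + 1) c)).eventually_lt continuousAt_const h2] with q' h3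
      exact ⟨fun _ => h3, fun h => absurd h (by decide)⟩
    · have h2 := (hc n).2 hcn
      filter_upwards [hA.eventually_lt (hcont (sh (n + 1) c)) h2] with q' h3
      exact ⟨fun h => absurd h (by decide), fun _ => h3⟩
  induction N with
  | zero => exact Eventually.of_forall fun k i hi => absurd hi (by omega)
  | succ N ih =>
    filter_upwards [ih, h1 N] with k hk1 hk2 i hi
    rcases Nat.lt_or_ge i N with h | h
    · exact hk1 i h
    · rw [show i = N by omega]; exact hk2

/-- a univoque sequence which is not univoque in any smaller base has infinitely many zeros -/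
lemma inf_zeros {q : ℝ} (hq : 1 < q) {c : ℕ → Bool} (hc : Un q c)
    (hno : ∀ q', 1 < q' → q' < q → ¬ Un q' c) (m : ℕ) : ∃ n, m ≤ n ∧ c n = false := by
  by_contra hcon
  push Not at hcon
  have h1 : ∀ n, m ≤ n → c n = true := fun n hn => by simpa using hcon n hn
  have h2 := (open_cond hq hc m).filter_mono (nhdsWithin_le_nhds (s := Set.Iio q))
  have h3 : ∀ᶠ q' in 𝓝[<] q, q' ∈ Set.Ioo 1 q := Ioo_mem_nhdsLT hq
  obtain ⟨q', h4, h5⟩ := (h2.and h3).exists
  refine hno q' h5.1 h5.2 fun n => ?_
  rcases Nat.lt_or_ge n m with h | h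
  · exact h4 n h
  · have e : sh (n + 1) c = fun _ => true := by
      funext i
      rw [sh_apply]
      exact h1 _ (by omega)
    refine ⟨fun h6 => ?_, fun _ => ?_⟩
    · rw [h1 n h] at h6; exact absurd h6 (by decide)
    · rw [e, P_ones h5.1]; linarith

/-- if the conditions are not open then `1` has a weakly univoque expansion -/
lemma exists_one {q : ℝ} (hq1 : 1 < q) {c : ℕ → Bool} (hc : Un q c)
    (hno : ∀ q', 1 < q' → q' < q → ¬ Un q' c) : ∃ f, WU q f ∧ P q f = 1 := by
  let u : ℕ → ℝ := fun k => q - (q - 1) / ((k : ℝ) + 2)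
  have hu1 : ∀ k, 1 < u k := fun k => by
    have h1 : (q - 1) / ((k : ℝ) + 2) < q - 1 := by
      rw [div_lt_iff₀ (by positivity)]
      have : (0 : ℝ) ≤ k := Nat.cast_nonneg k
      nlinarith
    show 1 < q - (q - 1) / ((k : ℝ) + 2)
    linarith
  have hu2 : ∀ k, u k < q := fun k => by
    have h1 : 0 < (q - 1) / ((k : ℝ) + 2) := div_pos (by linarith) (by positivity)
    show q - (q - 1) / ((k : ℝ) + 2) < q
    linarith
  have hu : Tendsto u atTop (𝓝 q) := by
    have h1 : Tendsto (fun k : ℕ => (q - 1) / ((k : ℝ) + 2)) atTop (𝓝 0) := by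
      refine Tendsto.div_atTop tendsto_const_nhds ?_
      exact tendsto_atTop_add_const_right _ _ tendsto_natCast_atTop_atTop
    have h2 : Tendsto (fun k : ℕ => q - (q - 1) / ((k : ℝ) + 2)) atTop (𝓝 (q - 0)) :=
      tendsto_const_nhds.sub h1
    rwa [sub_zero] at h2
  have hviol : ∀ k, ∃ e : ℕ → Bool, Un q e ∧ 1 ≤ P (u k) e ∧ P q e < 1 := by
    intro k
    have h1 := hno (u k) (hu1 k) (hu2 k)
    unfold Un at h1
    push Not at h1
    obtain ⟨n, hn⟩ := h1
    cases hcn : c n
    · by_cases h2 : P (u k) (sh (n + 1) c) < 1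
      · have := (hn fun _ => h2).1
        rw [hcn] at this
        exact absurd this (by decide)
      · exact ⟨sh (n + 1) c, hc.sh _, not_lt.1 h2, (hc n).1 hcn⟩
    · have h3 := (hn fun h => absurd (hcn.symm.trans h) (by decide)).2
      refine ⟨fun i => !(sh (n + 1) c i), (hc.sh _).compl hq1, ?_, ?_⟩
      · rw [P_compl (hu1 k)]; linarith
      · rw [P_compl hq1]
        have := (hc n).2 hcn
        linarith
  choose e he1 he2 he3 using hviol
  obtain ⟨e0, φ, hφ, he0⟩ := CompactSpace.tendsto_subseq e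
  refine ⟨e0, WU.lim hq1 (tendsto_const_nhds (x := q)) he0 fun k => (he1 _).wu, ?_⟩
  apply le_antisymm
  · exact le_of_tendsto' (P_tendsto hq1 (tendsto_const_nhds (x := q)) he0) fun k => (he3 _).le
  · exact ge_of_tendsto' (P_tendsto hq1 (hu.comp hφ.tendsto_atTop) he0) fun k => he2 _

/-- points slightly to the right of a point with a univoque base below `Q` have such a base -/
theorem H1_gen {q Q : ℝ} (hq1 : 1 < q) (hqQ : q < Q) (hQ2 : Q < 2) {c : ℕ → Bool} (hc : Un q c)
    (hpos : 0 < P q c) :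
    ∃ δ, 0 < δ ∧ ∀ y, P q c < y → y < P q c + δ → ∃ q' ∈ Ux y, q' < Q := by
  obtain ⟨m, hm⟩ := exists_true_of_pos hpos
  by_cases h : ∃ q', 1 < q' ∧ q' < q ∧ Un q' c
  · obtain ⟨q'', h1, h2, h3⟩ := h
    refine ⟨P q'' c - P q c, by have := P_strict h1 h2 c hm; linarith, fun y hy1 hy2 => ?_⟩
    obtain ⟨q', h4, h5, h6⟩ := P_ivt h1 h2.le c hy1 (by linarith)
    exact ⟨q', mem_Ux.2 ⟨by linarith, by linarith, c, h6, h3.mono h1 h4.le⟩, by linarith⟩
  · push Not at h
    obtain ⟨f, hf, hf1⟩ := exists_one hq1 hc h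
    have hQ1 : 1 < Q := by linarith
    have hlt := P_strict hq1 hqQ c hm
    obtain ⟨B, hB⟩ : ∃ B : ℕ, ∀ n, B ≤ n → 1 / (Q - 1) / Q ^ n < P q c - P Q c := by
      have hlim : Tendsto (fun n : ℕ => 1 / (Q - 1) / Q ^ n) atTop (𝓝 0) := by
        have h5 : Tendsto (fun n : ℕ => (1 / (Q - 1)) * (1 / Q) ^ n) atTop
            (𝓝 ((1 / (Q - 1)) * 0)) :=
          (tendsto_pow_atTop_nhds_zero_of_lt_one (by positivity)
            (by rw [div_lt_one (by linarith)]; exact hQ1)).const_mul _
        rw [mul_zero] at h5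
        refine h5.congr fun n => ?_
        rw [one_div_pow, mul_one_div]
      have := hlim.eventually (gt_mem_nhds (show 0 < P q c - P Q c by linarith))
      rw [eventually_atTop] at this
      exact this
    obtain ⟨n, hn1, hn2, hn3⟩ := exists_good_pos hq1 (by linarith) hc hf hf1
      (inf_zeros hq1 hc h) B
    have hW := flip_wu hq1 hc hf hf1 hn2 hn3
    set d := glue n c (cons true fun i => !f i) with hd
    have hdc : ∀ i < n, d i = c i := fun i hi => by rw [hd, glue_lt _ _ hi]
    have hdn : d n = true := by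
      have := congrFun (sh_glue n c (cons true fun i => !f i)) 0
      rw [← hd] at this
      simpa using this
    have h1 : P q c < P q d := hc.lt_left hq1 ⟨n, fun i hi => (hdc i hi).symm, hn2, hdn⟩
    have h2 := P_agree hQ1 (d := d) (e := c) hdc
    have h3 := hB n hn1
    refine ⟨P q d - P q c, by linarith, fun y hy1 hy2 => ?_⟩
    obtain ⟨q', h4, h5, h6⟩ := P_ivt hq1 hqQ.le d (by linarith : P Q d < y) (by linarith)
    exact ⟨q', mem_Ux.2 ⟨by linarith, by linarith, d, h6, hW.un hq1 h4⟩, h5⟩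

end Pool.Agent.Zk48.UL
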